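import Mathlib

/-!
Disproof of the lower general position inequality for Cartesian products.

For every `N` there is a finite connected graph `G` with `gp⁻(G) ≥ N` and `gp⁻(G □ G) ≤ 6`.
-/

set_option autoImplicit false

open SimpleGraph

namespace Pool.Agent.Results.MP_f79b2b_co.Counterexample

/-- `S` is a general position set of `G`: no shortest path of `G` contains three
(distinct) vertices of `S`. -/
def IsGenPos {V : Type} (G : SimpleGraph V) (S : Set V) : Prop :=
  ∀ (u v : V) (p : G.Walk u v), p.IsPath → p.length = G.dist u v →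
    ∀ x ∈ S, ∀ y ∈ S, ∀ z ∈ S, x ≠ y → y ≠ z → x ≠ z →
      ¬ (x ∈ p.support ∧ y ∈ p.support ∧ z ∈ p.support)

/-- The lower general position number: the least cardinality of a maximal (under inclusion)
general position set. -/
noncomputable def lowerGP {V : Type} (G : SimpleGraph V) : ℕ :=
  sInf {k : ℕ | ∃ S : Set V, Maximal (IsGenPos G) S ∧ S.ncard = k}

/-! General facts -/

section General

variable {V : Type} {G : SimpleGraph V}

theorem dist_getVert_le (hG : G.Connected) {u v : V} (p : G.Walk u v) (i d : ℕ) :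
    G.dist (p.getVert i) (p.getVert (i + d)) ≤ d := by
  induction d with
  | zero => simp
  | succ d ih =>
    have h1 : G.dist (p.getVert (i + d)) (p.getVert (i + d + 1)) ≤ 1 := by
      by_cases h : i + d < p.length
      · exact (dist_eq_one_iff_adj.mpr (p.adj_getVert_succ h)).le
      · rw [p.getVert_of_length_le (by omega), p.getVert_of_length_le (by omega)]
        simp
    have h2 := hG.dist_triangle (u := p.getVert i) (v := p.getVert (i + d))
      (w := p.getVert (i + d + 1))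
    rw [← add_assoc]
    omega

theorem dist_getVert_eq (hG : G.Connected) {u v : V} (p : G.Walk u v)
    (hp : p.length = G.dist u v) {i j : ℕ} (hij : i ≤ j) (hj : j ≤ p.length) :
    G.dist (p.getVert i) (p.getVert j) = j - i := by
  have h1 := dist_getVert_le hG p 0 i
  have h2 := dist_getVert_le hG p i (j - i)
  have h3 := dist_getVert_le hG p j (p.length - j)
  rw [zero_add, p.getVert_zero] at h1
  rw [show i + (j - i) = j by omega] at h2
  rw [show j + (p.length - j) = p.length by omega, p.getVert_length] at h3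
  have t1 := hG.dist_triangle (u := u) (v := p.getVert i) (w := v)
  have t2 := hG.dist_triangle (u := p.getVert i) (v := p.getVert j) (w := v)
  omega

theorem isGenPos_iff (hG : G.Connected) (S : Set V) :
    IsGenPos G S ↔ ∀ x ∈ S, ∀ y ∈ S, ∀ z ∈ S, x ≠ y → y ≠ z → x ≠ z →
      G.dist x y + G.dist y z ≠ G.dist x z := by
  constructor
  · intro h x hx y hy z hz hxy hyz hxz hd
    obtain ⟨p, hp⟩ := hG.exists_walk_length_eq_dist x y
    obtain ⟨q, hq⟩ := hG.exists_walk_length_eq_dist y z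
    have hl : (p.append q).length = G.dist x z := by rw [Walk.length_append]; omega
    refine h x z (p.append q) (Walk.isPath_of_length_eq_dist _ hl) hl x hx y hy z hz hxy hyz hxz
      ⟨Walk.start_mem_support _, ?_, Walk.end_mem_support _⟩
    rw [Walk.mem_support_append_iff]
    exact Or.inl (Walk.end_mem_support _)
  · rintro h u v p - hp x hx y hy z hz hxy hyz hxz ⟨mx, my, mz⟩
    obtain ⟨i, rfl, hi⟩ := Walk.mem_support_iff_exists_getVert.mp mx
    obtain ⟨j, rfl, hj⟩ := Walk.mem_support_iff_exists_getVert.mp my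
    obtain ⟨k, rfl, hk⟩ := Walk.mem_support_iff_exists_getVert.mp mz
    have key : ∀ a b c : ℕ, a ≤ b → b ≤ c → c ≤ p.length →
        G.dist (p.getVert a) (p.getVert b) + G.dist (p.getVert b) (p.getVert c) =
          G.dist (p.getVert a) (p.getVert c) := by
      intro a b c hab hbc hc
      rw [dist_getVert_eq hG p hp hab (hbc.trans hc), dist_getVert_eq hG p hp hbc hc,
        dist_getVert_eq hG p hp (hab.trans hbc) hc]
      omega
    rcases le_total i j with h1 | h1 <;> rcases le_total j k with h2 | h2 <;>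
      rcases le_total i k with h3 | h3
    · exact h _ hx _ hy _ hz hxy hyz hxz (key _ _ _ h1 h2 hk)
    · exact h _ hx _ hy _ hz hxy hyz hxz (key _ _ _ h1 h2 hk)
    · exact h _ hx _ hz _ hy hxz hyz.symm hxy (key _ _ _ h3 h2 hj)
    · exact h _ hz _ hx _ hy hxz.symm hxy hyz.symm (key _ _ _ h3 h1 hj)
    · exact h _ hy _ hx _ hz hxy.symm hxz hyz (key _ _ _ h1 h3 hk)
    · exact h _ hy _ hz _ hx hyz hxz.symm hxy.symm (key _ _ _ h2 h3 hi)
    · exact h _ hz _ hy _ hx hyz.symm hxy.symm hxz.symm (key _ _ _ h2 h1 hi)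
    · exact h _ hz _ hy _ hx hyz.symm hxy.symm hxz.symm (key _ _ _ h2 h1 hi)

theorem dist_boxProd_self (hG : G.Connected) (x y : V × V) :
    (G □ G).dist x y = G.dist x.1 y.1 + G.dist x.2 y.2 := by
  have h := edist_boxProd (G := G) (H := G) x y
  rw [← ((hG.boxProd hG).preconnected x y).coe_dist_eq_edist,
    ← (hG.preconnected x.1 y.1).coe_dist_eq_edist,
    ← (hG.preconnected x.2 y.2).coe_dist_eq_edist] at h
  exact_mod_cast h

theorem exists_maximal_genPos [Finite V] (G : SimpleGraph V) :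
    ∃ S : Set V, Maximal (IsGenPos G) S := by
  have h0 : IsGenPos G ∅ := fun _ _ _ _ _ x hx => absurd hx (Set.notMem_empty x)
  obtain ⟨S, -, hS⟩ := Finite.exists_le_maximal h0
  exact ⟨S, hS⟩

end General

/-! The counterexample: a base graph on 9 vertices whose last three vertices are replaced by
`N + 1` pairwise adjacent copies each. -/

/-- Edge list of the base graph (vertices 6, 7, 8 carry a loop standing for their copies). -/
def edges0 : List (Fin 9 × Fin 9) :=
  [(0, 3), (0, 5), (1, 2), (1, 3), (1, 4), (2, 5), (3, 4), (4, 5),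
   (6, 0), (6, 2), (6, 5), (7, 1), (7, 2), (7, 3), (7, 4), (7, 5), (8, 2), (8, 5),
   (6, 6), (6, 7), (6, 8), (7, 7), (7, 8), (8, 8)]

def adj0 (a b : Fin 9) : Bool := decide ((a, b) ∈ edges0) || decide ((b, a) ∈ edges0)

def d0 (a b : Fin 9) : ℕ := if a = b then 0 else if adj0 a b then 1 else 2

def ia (i : Fin 6) : Fin 9 := ⟨i.1, by omega⟩

def ix (c : Fin 3) : Fin 9 := ⟨6 + c.1, by omega⟩

abbrev W (N : ℕ) : Type := Fin 6 ⊕ (Fin 3 × Fin (N + 1))

def pr {N : ℕ} : W N → Fin 9
  | .inl i => ia i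
  | .inr q => ix q.1

theorem adj0_symm : ∀ a b : Fin 9, adj0 a b = adj0 b a := by decide +kernel

def gr (N : ℕ) : SimpleGraph (W N) where
  Adj u v := u ≠ v ∧ adj0 (pr u) (pr v) = true
  symm := ⟨fun _ _ h => ⟨h.1.symm, by rw [adj0_symm]; exact h.2⟩⟩
  loopless := ⟨fun _ h => h.1 rfl⟩

theorem ia_inj : ∀ i j : Fin 6, ia i = ia j → i = j := by decide +kernel

theorem ia_ne_ix : ∀ (i : Fin 6) (c : Fin 3), ia i ≠ ix c := by decide +kernel

theorem adj0_ix : ∀ c c' : Fin 3, adj0 (ix c) (ix c') = true := by decide +kernel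

theorem pr_surj {N : ℕ} (a : Fin 9) : ∃ w : W N, pr w = a := by
  have : ∀ a : Fin 9, (∃ i, ia i = a) ∨ ∃ c, ix c = a := by decide +kernel
  rcases this a with ⟨i, hi⟩ | ⟨c, hc⟩
  · exact ⟨.inl i, hi⟩
  · exact ⟨.inr (c, 0), hc⟩

theorem pr_eq_ia {N : ℕ} {u : W N} {i : Fin 6} (h : pr u = ia i) : u = .inl i := by
  rcases u with j | q
  · rw [ia_inj _ _ h]
  · exact absurd h.symm (ia_ne_ix _ _)

theorem pr_ne {N : ℕ} {u v : W N} (h : u ≠ v) (h' : adj0 (pr u) (pr v) = false) :
    pr u ≠ pr v := by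
  intro e
  rcases v with j | q
  · exact h (pr_eq_ia e)
  · rcases u with i | q'
    · exact ia_ne_ix _ _ e
    · simp [pr, adj0_ix] at h'

theorem common0 : ∀ a b : Fin 9, a ≠ b → adj0 a b = false →
    ∃ c, adj0 a c = true ∧ adj0 c b = true := by decide +kernel

theorem common {N : ℕ} {u v : W N} (h : u ≠ v) (h' : adj0 (pr u) (pr v) = false) :
    ∃ w, (gr N).Adj u w ∧ (gr N).Adj w v := by
  obtain ⟨c, h1, h2⟩ := common0 _ _ (pr_ne h h') h'
  obtain ⟨w, rfl⟩ := pr_surj (N := N) c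
  refine ⟨w, ⟨?_, h1⟩, ⟨?_, h2⟩⟩
  · rintro rfl; simp [h2] at h'
  · rintro rfl; simp [h1] at h'

theorem gr_connected (N : ℕ) : (gr N).Connected := by
  refine ⟨fun u v => ?_⟩
  by_cases h : u = v
  · rw [h]
  · cases h' : adj0 (pr u) (pr v)
    · obtain ⟨w, h1, h2⟩ := common h h'
      exact h1.reachable.trans h2.reachable
    · exact Adj.reachable ⟨h, h'⟩

theorem gr_dist {N : ℕ} {u v : W N} (h : u ≠ v) :
    (gr N).dist u v = if adj0 (pr u) (pr v) then 1 else 2 := by
  cases h' : adj0 (pr u) (pr v)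
  · obtain ⟨w, h1, h2⟩ := common h h'
    have a1 := (gr_connected N).one_lt_dist_of_ne_of_not_adj h
      (fun hh => by have := hh.2; simp [h'] at this)
    have a2 := dist_le (Walk.cons h1 (Walk.cons h2 Walk.nil))
    simp at a2 ⊢
    omega
  · simpa using dist_eq_one_iff_adj.mpr (show (gr N).Adj u v from ⟨h, h'⟩)

theorem gr_dist_inl {N : ℕ} (u : W N) (i : Fin 6) :
    (gr N).dist u (.inl i) = d0 (pr u) (ia i) := by
  by_cases h : u = .inl i
  · subst h; simp [d0, pr]
  · have : pr u ≠ ia i := fun e => h (pr_eq_ia e)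
    rw [gr_dist h, d0, if_neg this]; rfl

theorem gr_dist_inl' {N : ℕ} (u : W N) (i : Fin 6) :
    (gr N).dist (.inl i) u = d0 (pr u) (ia i) := by
  rw [dist_comm, gr_dist_inl]

/-- Adding a true twin keeps general position. -/
theorem twin {N : ℕ} {S : Set (W N)} (hS : IsGenPos (gr N) S) {c : Fin 3} {j : Fin (N + 1)}
    (hj : Sum.inr (c, j) ∈ S) (j' : Fin (N + 1)) :
    IsGenPos (gr N) (insert (Sum.inr (c, j')) S) := by
  rw [isGenPos_iff (gr_connected N)] at hS ⊢
  set t : W N := Sum.inr (c, j) with ht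
  set t' : W N := Sum.inr (c, j') with ht'
  have e1 : ∀ w : W N, w ≠ t → w ≠ t' → (gr N).dist w t' = (gr N).dist w t := by
    intro w h1 h2
    rw [gr_dist h1, gr_dist h2]; rfl
  have e1' : ∀ w : W N, w ≠ t → w ≠ t' → (gr N).dist t' w = (gr N).dist t w := by
    intro w h1 h2
    rw [dist_comm, e1 w h1 h2, dist_comm]
  have e2 : t ≠ t' → (gr N).dist t t' = 1 := by
    intro h
    rw [gr_dist h]; simp [ht, ht', pr, adj0_ix]
  have e2' : t ≠ t' → (gr N).dist t' t = 1 := fun h => by rw [dist_comm, e2 h]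
  have sy : ∀ a b : W N, (gr N).dist a b = (gr N).dist b a := fun a b => dist_comm
  intro x hx y hy z hz hxy hyz hxz
  rcases hx with rfl | hx
  · rcases hy with rfl | hy
    · exact absurd rfl hxy
    rcases hz with rfl | hz
    · exact absurd rfl hxz
    by_cases hyt : y = t
    · subst hyt
      rw [e2' hxy.symm, e1' z hyz.symm hxz.symm]; omega
    by_cases hzt : z = t
    · subst hzt
      rw [e2' hxz.symm, e1' y hyz hxy.symm, sy t y]; omega
    rw [e1' y hyt hxy.symm, e1' z hzt hxz.symm]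
    exact hS t hj y hy z hz (Ne.symm hyt) hyz (Ne.symm hzt)
  rcases hy with rfl | hy
  · rcases hz with rfl | hz
    · exact absurd rfl hyz
    by_cases hxt : x = t
    · subst hxt
      rw [e2 hxy, e1' z hxz.symm hyz.symm]; omega
    by_cases hzt : z = t
    · subst hzt
      rw [e2' hyz.symm, e1 x hxz hxy]; omega
    rw [e1 x hxt hxy, e1' z hzt hyz.symm]
    exact hS x hx t hj z hz hxt (Ne.symm hzt) hxz
  rcases hz with rfl | hz
  · by_cases hxt : x = t
    · subst hxt
      rw [e2 hxz, e1 y hxy.symm hyz, sy y t]; omega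
    by_cases hyt : y = t
    · subst hyt
      rw [e2 hyz, e1 x hxy hxz]; omega
    rw [e1 y hyt hyz, e1 x hxt hxz]
    exact hS x hx y hy t hj hxy hyt hxt
  exact hS x hx y hy z hz hxy hyz hxz

set_option synthInstance.maxSize 2000 in
theorem extend0 : ∀ f : Fin 6 → Bool,
    (∀ x y z : Fin 6, f x = true → f y = true → f z = true → x ≠ y → y ≠ z → x ≠ z →
      d0 (ia x) (ia y) + d0 (ia y) (ia z) ≠ d0 (ia x) (ia z)) →
    ∃ c : Fin 3, ∀ x y : Fin 6, f x = true → f y = true → x ≠ y →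
      d0 (ix c) (ia x) + d0 (ia x) (ia y) ≠ d0 (ix c) (ia y) ∧
      d0 (ix c) (ia x) + d0 (ix c) (ia y) ≠ d0 (ia x) (ia y) := by
  decide +kernel

theorem exists_inr {N : ℕ} {S : Set (W N)} (hS : Maximal (IsGenPos (gr N)) S) :
    ∃ q, Sum.inr q ∈ S := by
  classical
  by_contra hn
  push Not at hn
  have hG := (isGenPos_iff (gr_connected N) S).mp hS.prop
  obtain ⟨c, hc⟩ := extend0 (fun i => decide (Sum.inl i ∈ S)) (by
    intro x y z hx hy hz hxy hyz hxz
    have := hG _ (of_decide_eq_true hx) _ (of_decide_eq_true hy) _ (of_decide_eq_true hz)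
      (by simpa using hxy) (by simpa using hyz) (by simpa using hxz)
    simpa only [gr_dist_inl, pr] using this)
  have hc' : ∀ x y : Fin 6, Sum.inl x ∈ S → Sum.inl y ∈ S → x ≠ y →
      d0 (ix c) (ia x) + d0 (ia x) (ia y) ≠ d0 (ix c) (ia y) ∧
      d0 (ix c) (ia x) + d0 (ix c) (ia y) ≠ d0 (ia x) (ia y) :=
    fun x y hx hy hxy => hc x y (decide_eq_true hx) (decide_eq_true hy) hxy
  have hA : ∀ w ∈ S, ∃ i, w = Sum.inl i := by
    rintro (i | q) hw
    · exact ⟨i, rfl⟩
    · exact absurd hw (hn q)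
  have hI : IsGenPos (gr N) (insert (Sum.inr (c, 0)) S) := by
    rw [isGenPos_iff (gr_connected N)]
    intro x hx y hy z hz hxy hyz hxz
    rcases hx with rfl | hx
    · rcases hy with rfl | hy
      · exact absurd rfl hxy
      rcases hz with rfl | hz
      · exact absurd rfl hxz
      obtain ⟨y, rfl⟩ := hA y hy
      obtain ⟨z, rfl⟩ := hA z hz
      simpa only [gr_dist_inl, pr] using (hc' y z hy hz (by simpa using hyz)).1
    obtain ⟨x, rfl⟩ := hA x hx
    rcases hy with rfl | hy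
    · rcases hz with rfl | hz
      · exact absurd rfl hyz
      obtain ⟨z, rfl⟩ := hA z hz
      rw [gr_dist_inl' _ x]
      simpa only [gr_dist_inl, pr] using (hc' x z hx hz (by simpa using hxz)).2
    obtain ⟨y, rfl⟩ := hA y hy
    rcases hz with rfl | hz
    · rw [gr_dist_inl' (Sum.inr _) x, gr_dist_inl' (Sum.inr _) y, gr_dist_inl' _ x, add_comm]
      simpa only [pr] using (hc' y x hy hx (by simpa using hxy.symm)).1
    exact hG _ hx _ hy _ hz hxy hyz hxz
  exact hn (c, 0) (hS.le_of_ge hI (Set.subset_insert _ _) (Set.mem_insert _ _))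

theorem lower (N : ℕ) : N ≤ lowerGP (gr N) := by
  obtain ⟨S0, hS0⟩ := exists_maximal_genPos (gr N)
  refine le_csInf ⟨_, S0, hS0, rfl⟩ ?_
  rintro k ⟨S, hS, rfl⟩
  obtain ⟨⟨c, j⟩, hj⟩ := exists_inr hS
  have hall : ∀ j' : Fin (N + 1), Sum.inr (c, j') ∈ S := fun j' =>
    hS.le_of_ge (twin hS.prop hj j') (Set.subset_insert _ _) (Set.mem_insert _ _)
  have hinj : Function.Injective (fun j' : Fin (N + 1) => (Sum.inr (c, j') : W N)) := by
    intro a b h; simpa using h
  have h1 : (Set.range fun j' : Fin (N + 1) => (Sum.inr (c, j') : W N)).ncard ≤ S.ncard :=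
    Set.ncard_le_ncard (by rintro _ ⟨j', rfl⟩; exact hall j') (Set.toFinite _)
  rw [Set.ncard_range_of_injective hinj] at h1
  simp at h1
  omega

def sg : Fin 6 → Fin 6 := ![1, 0, 3, 2, 4, 5]

def pt (N : ℕ) (i : Fin 6) : W N × W N := (.inl i, .inl (sg i))

theorem gp0 : ∀ x y z : Fin 6, x ≠ y → y ≠ z → x ≠ z →
    (d0 (ia x) (ia y) + d0 (ia (sg x)) (ia (sg y))) +
      (d0 (ia y) (ia z) + d0 (ia (sg y)) (ia (sg z))) ≠
      d0 (ia x) (ia z) + d0 (ia (sg x)) (ia (sg z)) := by
  decide +kernel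

theorem cover0 : ∀ a b : Fin 9, (∃ i, a = ia i ∧ b = ia (sg i)) ∨
    ∃ x y : Fin 6, x ≠ y ∧
      ((d0 a (ia x) + d0 b (ia (sg x))) + (d0 (ia x) (ia y) + d0 (ia (sg x)) (ia (sg y))) =
        d0 a (ia y) + d0 b (ia (sg y)) ∨
      (d0 a (ia x) + d0 b (ia (sg x))) + (d0 a (ia y) + d0 b (ia (sg y))) =
        d0 (ia x) (ia y) + d0 (ia (sg x)) (ia (sg y))) := by
  decide +kernel

theorem pt_inj (N : ℕ) : Function.Injective (pt N) := by
  intro a b h
  simpa [pt] using congrArg Prod.fst h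

theorem maximal_pt (N : ℕ) : Maximal (IsGenPos (gr N □ gr N)) (Set.range (pt N)) := by
  have hc := gr_connected N
  have hcc := hc.boxProd hc
  refine ⟨?_, fun T hT hle w hw => ?_⟩
  · rw [isGenPos_iff hcc]
    rintro _ ⟨x, rfl⟩ _ ⟨y, rfl⟩ _ ⟨z, rfl⟩ hxy hyz hxz
    simp only [dist_boxProd_self hc, pt, gr_dist_inl, pr]
    exact gp0 x y z (fun e => hxy (e ▸ rfl)) (fun e => hyz (e ▸ rfl)) (fun e => hxz (e ▸ rfl))
  · by_contra hn
    rw [isGenPos_iff hcc] at hT
    have hne : ∀ i, w ≠ pt N i := fun i e => hn ⟨i, e.symm⟩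
    have hm : ∀ i, pt N i ∈ T := fun i => hle ⟨i, rfl⟩
    rcases cover0 (pr w.1) (pr w.2) with ⟨i, h1, h2⟩ | ⟨x, y, hxy, h | h⟩
    · exact hne i (Prod.ext (pr_eq_ia h1) (pr_eq_ia h2))
    · refine hT w hw _ (hm x) _ (hm y) (hne x) ((pt_inj N).ne hxy) (hne y) ?_
      simpa only [dist_boxProd_self hc, pt, gr_dist_inl, pr] using h
    · refine hT _ (hm x) w hw _ (hm y) (hne x).symm (hne y) ((pt_inj N).ne hxy) ?_
      rw [dist_comm (u := pt N x) (v := w)]
      simpa only [dist_boxProd_self hc, pt, gr_dist_inl, pr] using h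

theorem upper (N : ℕ) : lowerGP (gr N □ gr N) ≤ 6 := by
  refine Nat.sInf_le ⟨_, maximal_pt N, ?_⟩
  rw [Set.ncard_range_of_injective (pt_inj N)]
  simp

/-- For every `N` there is a finite connected graph `G` with `gp⁻(G) ≥ N` and
`gp⁻(G □ G) ≤ 6`. -/
theorem result : ∀ N : ℕ, ∃ (V : Type) (_ : Finite V) (G : SimpleGraph V),
    G.Connected ∧ N ≤ lowerGP G ∧ lowerGP (G □ G) ≤ 6 :=
  fun N => ⟨W N, inferInstance, gr N, gr_connected N, lower N, upper N⟩

end Pool.Agent.Results.MP_f79b2b_co.Counterexample
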